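import Pool.Agent.W810.SYN.Stm

/-!
# Project SYN, part HAR: a Hardy type inequality
-/

set_option autoImplicit false

namespace Pool.Agent.W530.SYN.HAR

open MeasureTheory AddCircle Filter Topology Pool.Agent.Results.MP_535799_an.NonSidon
open Pool.Agent.W810.SYN

noncomputable section

lemma series (s : ℝ) (hs0 : 0 ≤ s) (hs2 : s ≤ 2) (a : ℕ → ℝ)
    (h1 : ∀ N, a N ≤ s) (h2 : ∀ N : ℕ, a N * s * ((N : ℝ) + 1) ^ 2 ≤ 4) (M : ℕ) :
    ∑ N ∈ Finset.range M, a N ≤ 7 := by
  have hA : ∀ M : ℕ, ∑ N ∈ Finset.range M, a N ≤ M * s := by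
    intro M
    calc ∑ N ∈ Finset.range M, a N ≤ ∑ _N ∈ Finset.range M, s := Finset.sum_le_sum fun N _ => h1 N
      _ = M * s := by simp
  rcases eq_or_lt_of_le hs0 with h0 | hs
  · have := hA M
    rw [← h0] at this
    linarith
  set k : ℕ := ⌈1 / s⌉₊ with hk
  have hk1 : 1 / s ≤ k := Nat.le_ceil _
  have hk2 : (k : ℝ) < 1 / s + 1 := Nat.ceil_lt_add_one (by positivity)
  have hkpos : (0 : ℝ) < k := lt_of_lt_of_le (by positivity) hk1
  have hks1 : (k : ℝ) * s ≤ 3 := by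
    have : (k : ℝ) * s < (1 / s + 1) * s := mul_lt_mul_of_pos_right hk2 hs
    have h3 : (1 / s + 1) * s = 1 + s := by field_simp
    linarith
  have hks2 : 4 / s * (1 / k) ≤ 4 := by
    have h3 : 1 ≤ (k : ℝ) * s := by
      rw [div_le_iff₀ hs] at hk1
      exact hk1
    have h4 : 4 / s * (1 / k) = 4 / (k * s) := by field_simp
    rw [h4, div_le_iff₀ (by positivity)]
    linarith
  have hB : ∀ j : ℕ, ∑ N ∈ Finset.range (k + j), a N ≤
      k * s + 4 / s * (1 / (k : ℝ) - 1 / ((k : ℝ) + j)) := by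
    intro j
    induction j with
    | zero => simpa using hA k
    | succ j ih =>
      rw [← add_assoc, Finset.sum_range_succ]
      have h3 := h2 (k + j)
      push_cast at h3 ⊢
      have hkj : (0 : ℝ) < (k : ℝ) + j := by positivity
      have h5 : a (k + j) ≤ 4 / (s * ((k : ℝ) + j + 1) ^ 2) := by
        rw [le_div_iff₀ (by positivity)]
        linarith
      have h6 : 4 / (s * ((k : ℝ) + j + 1) ^ 2) ≤
          4 / s * (1 / ((k : ℝ) + j) - 1 / ((k : ℝ) + (j + 1))) := by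
        have h7 : 1 / ((k : ℝ) + j) - 1 / ((k : ℝ) + (j + 1)) =
            1 / (((k : ℝ) + j) * ((k : ℝ) + j + 1)) := by
          field_simp
          ring
        rw [h7]
        have h8 : 4 / s * (1 / (((k : ℝ) + j) * ((k : ℝ) + j + 1))) =
            4 / (s * (((k : ℝ) + j) * ((k : ℝ) + j + 1))) := by
          field_simp
        rw [h8]
        apply div_le_div_of_nonneg_left (by norm_num) (by positivity)
        apply mul_le_mul_of_nonneg_left _ hs.le
        nlinarith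
      calc ∑ N ∈ Finset.range (k + j), a N + a (k + j)
          ≤ (k * s + 4 / s * (1 / (k : ℝ) - 1 / ((k : ℝ) + j))) +
            4 / s * (1 / ((k : ℝ) + j) - 1 / ((k : ℝ) + (j + 1))) := add_le_add ih (h5.trans h6)
        _ = k * s + 4 / s * (1 / (k : ℝ) - 1 / ((k : ℝ) + (j + 1))) := by ring
  rcases le_total M k with h | h
  · calc ∑ N ∈ Finset.range M, a N ≤ M * s := hA M
      _ ≤ k * s := mul_le_mul_of_nonneg_right (by exact_mod_cast h) hs0
      _ ≤ 7 := by linarith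
  · obtain ⟨j, rfl⟩ := Nat.exists_eq_add_of_le h
    have h3 := hB j
    have h4 : 4 / s * (1 / (k : ℝ) - 1 / ((k : ℝ) + j)) ≤ 4 / s * (1 / (k : ℝ)) := by
      apply mul_le_mul_of_nonneg_left _ (by positivity)
      have : 0 ≤ 1 / ((k : ℝ) + j) := by positivity
      linarith
    linarith

lemma split (h : ℤ → ℂ) (N : ℕ) : ∑ n ∈ Finset.Icc (-(N : ℤ) - 1) N, h n =
    ∑ k ∈ Finset.range (N + 1), (h k + h (-(k : ℤ) - 1)) := by
  induction N with
  | zero =>
    have h1 : Finset.Icc (-((0 : ℕ) : ℤ) - 1) ((0 : ℕ) : ℤ) = {0, -1} := by decide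
    rw [h1]
    simp
  | succ N ih =>
    have h1 : Finset.Icc (-((N + 1 : ℕ) : ℤ) - 1) ((N + 1 : ℕ) : ℤ) =
        insert ((N + 1 : ℕ) : ℤ) (insert (-((N + 1 : ℕ) : ℤ) - 1) (Finset.Icc (-(N : ℤ) - 1) N)) := by
      ext n
      simp only [Finset.mem_Icc, Finset.mem_insert]
      push_cast
      omega
    rw [h1, Finset.sum_insert, Finset.sum_insert, ih, Finset.sum_range_succ _ (N + 1)]
    · ring
    · simp only [Finset.mem_Icc]
      push_cast
      omega
    · simp only [Finset.mem_Icc, Finset.mem_insert]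
      push_cast
      omega

lemma Gc_nonneg {N k : ℕ} (hk : k < N + 1) : Gc N (k : ℤ) = 1 / ((N : ℂ) + 1) := by
  unfold Gc lam
  have h1 : |(k : ℤ)| = k := abs_of_nonneg (by positivity)
  have h2 : |(k : ℤ) + 1| = k + 1 := abs_of_nonneg (by positivity)
  rw [h1, h2, max_eq_right (by omega), max_eq_right (by omega)]
  push_cast
  ring

lemma Gc_neg {N k : ℕ} (hk : k < N + 1) : Gc N (-(k : ℤ) - 1) = -(1 / ((N : ℂ) + 1)) := by
  unfold Gc lam
  have h1 : |-(k : ℤ) - 1| = k + 1 := by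
    rw [abs_of_nonpos (by omega)]; ring
  have h2 : |-(k : ℤ) - 1 + 1| = k := by
    rw [abs_of_nonpos (by omega)]; ring
  rw [h1, h2, max_eq_right (by omega), max_eq_right (by omega)]
  push_cast
  ring

/-- the kernel -/
def K (N : ℕ) (x : Circ) : ℂ :=
  ∑ n ∈ Finset.Icc (-(N : ℤ) - 1) N, Gc N n * (fourier (-n) x : ℂ)

lemma four_pow (x : Circ) (k : ℕ) : (fourier (k : ℤ) x : ℂ) = (fourier 1 x : ℂ) ^ k := by
  induction k with
  | zero => simp
  | succ k ih =>
    rw [pow_succ, ← ih, ← fourier_add]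
    push_cast
    rfl

lemma four_npow (x : Circ) (k : ℕ) : (fourier (-(k : ℤ)) x : ℂ) = (fourier (-1) x : ℂ) ^ k := by
  induction k with
  | zero => simp
  | succ k ih =>
    rw [pow_succ, ← ih, ← fourier_add]
    congr 2
    push_cast
    ring

lemma four_norm (x : Circ) (n : ℤ) : ‖(fourier n x : ℂ)‖ = 1 := by
  rw [fourier_apply]
  exact Circle.norm_coe _

lemma four_mul (x : Circ) : (fourier (-1) x : ℂ) * (fourier 1 x : ℂ) = 1 := by
  rw [← fourier_add]
  simp

lemma K_eq (N : ℕ) (x : Circ) : K N x = 1 / ((N : ℂ) + 1) *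
    ∑ k ∈ Finset.range (N + 1), ((fourier (-1) x : ℂ) ^ k - (fourier 1 x : ℂ) ^ (k + 1)) := by
  unfold K
  rw [split, Finset.mul_sum]
  refine Finset.sum_congr rfl fun k hk => ?_
  rw [Finset.mem_range] at hk
  rw [Gc_nonneg hk, Gc_neg hk, four_npow]
  have h1 : -(-(k : ℤ) - 1) = ((k + 1 : ℕ) : ℤ) := by push_cast; ring
  rw [h1, four_pow]
  ring

lemma one_sub_pow {z : ℂ} (hz : ‖z‖ = 1) (m : ℕ) : ‖1 - z ^ m‖ ≤ m * ‖1 - z‖ := by
  induction m with
  | zero => simp
  | succ m ih =>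
    have h1 : 1 - z ^ (m + 1) = (1 - z ^ m) + z ^ m * (1 - z) := by ring
    rw [h1]
    calc ‖(1 - z ^ m) + z ^ m * (1 - z)‖ ≤ ‖1 - z ^ m‖ + ‖z ^ m * (1 - z)‖ := norm_add_le _ _
      _ = ‖1 - z ^ m‖ + ‖1 - z‖ := by rw [norm_mul, norm_pow, hz, one_pow, one_mul]
      _ ≤ m * ‖1 - z‖ + ‖1 - z‖ := by linarith
      _ = ((m + 1 : ℕ) : ℝ) * ‖1 - z‖ := by push_cast; ring

lemma K_bound1 (N : ℕ) (x : Circ) : ‖K N x‖ ≤ ((N : ℝ) + 1) * sd x := by
  rw [K_eq, norm_mul]
  have h0 : ‖(1 : ℂ) / ((N : ℂ) + 1)‖ = 1 / ((N : ℝ) + 1) := by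
    rw [norm_div, norm_one]
    congr 1
    exact_mod_cast Complex.norm_natCast (N + 1)
  rw [h0]
  have h1 : ‖∑ k ∈ Finset.range (N + 1), ((fourier (-1) x : ℂ) ^ k - (fourier 1 x : ℂ) ^ (k + 1))‖
      ≤ ((N : ℝ) + 1) ^ 2 * sd x := by
    calc _ ≤ ∑ k ∈ Finset.range (N + 1), ‖(fourier (-1) x : ℂ) ^ k - (fourier 1 x : ℂ) ^ (k + 1)‖ :=
          norm_sum_le _ _
      _ ≤ ∑ k ∈ Finset.range (N + 1), (2 * (k : ℝ) + 1) * sd x := by
          refine Finset.sum_le_sum fun k _ => ?_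
          have h2 : (fourier (-1) x : ℂ) ^ k - (fourier 1 x : ℂ) ^ (k + 1) =
              (fourier (-1) x : ℂ) ^ k * (1 - (fourier 1 x : ℂ) ^ (2 * k + 1)) := by
            have h3 : (fourier (-1) x : ℂ) ^ k * (fourier 1 x : ℂ) ^ k = 1 := by
              rw [← mul_pow, four_mul, one_pow]
            have h4 : (fourier 1 x : ℂ) ^ (2 * k + 1) =
                (fourier 1 x : ℂ) ^ k * (fourier 1 x : ℂ) ^ (k + 1) := by
              rw [← pow_add]; congr 1; ring
            rw [h4, mul_sub, mul_one, ← mul_assoc, h3, one_mul]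
          rw [h2, norm_mul, norm_pow, four_norm, one_pow, one_mul]
          have h5 := one_sub_pow (four_norm x 1) (2 * k + 1)
          push_cast at h5
          exact h5
      _ = ((N : ℝ) + 1) ^ 2 * sd x := by
          rw [← Finset.sum_mul]
          congr 1
          induction N with
          | zero => simp
          | succ N ih =>
            rw [Finset.sum_range_succ, ih]
            · push_cast
              ring
            · rw [norm_div, norm_one]
              congr 1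
              exact_mod_cast Complex.norm_natCast (N + 1)
  have h3 : (0 : ℝ) < (N : ℝ) + 1 := by positivity
  calc 1 / ((N : ℝ) + 1) * _ ≤ 1 / ((N : ℝ) + 1) * (((N : ℝ) + 1) ^ 2 * sd x) :=
        mul_le_mul_of_nonneg_left h1 (by positivity)
    _ = ((N : ℝ) + 1) * sd x := by field_simp

lemma geo {w : ℂ} (hw : ‖w‖ = 1) (m : ℕ) : ‖1 - w‖ * ‖∑ k ∈ Finset.range m, w ^ k‖ ≤ 2 := by
  rw [← norm_mul, mul_neg_geom_sum]
  calc ‖1 - w ^ m‖ ≤ ‖(1 : ℂ)‖ + ‖w ^ m‖ := norm_sub_le _ _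
    _ = 2 := by rw [norm_one, norm_pow, hw, one_pow]; norm_num

lemma K_bound2 (N : ℕ) (x : Circ) : ‖K N x‖ * sd x ≤ 4 / ((N : ℝ) + 1) := by
  rw [K_eq, norm_mul]
  have h0 : ‖(1 : ℂ) / ((N : ℂ) + 1)‖ = 1 / ((N : ℝ) + 1) := by
    rw [norm_div, norm_one]
    congr 1
    exact_mod_cast Complex.norm_natCast (N + 1)
  rw [h0]
  have hw : ‖1 - (fourier (-1) x : ℂ)‖ = sd x := by
    have h1 : 1 - (fourier (-1) x : ℂ) = -((fourier (-1) x : ℂ) * (1 - (fourier 1 x : ℂ))) := by
      rw [mul_sub, four_mul, mul_one]; ring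
    rw [h1, norm_neg, norm_mul, four_norm, one_mul]
    rfl
  have h1 := geo (four_norm x (-1)) (N + 1)
  rw [hw] at h1
  have h2 := geo (four_norm x 1) (N + 1)
  have hz : ‖1 - (fourier 1 x : ℂ)‖ = sd x := rfl
  rw [hz] at h2
  have h3 : ∑ k ∈ Finset.range (N + 1), ((fourier (-1) x : ℂ) ^ k - (fourier 1 x : ℂ) ^ (k + 1)) =
      ∑ k ∈ Finset.range (N + 1), (fourier (-1) x : ℂ) ^ k -
        (fourier 1 x : ℂ) * ∑ k ∈ Finset.range (N + 1), (fourier 1 x : ℂ) ^ k := by
    rw [Finset.sum_sub_distrib, Finset.mul_sum]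
    congr 1
    refine Finset.sum_congr rfl fun k _ => ?_
    ring
  have h4 : ‖∑ k ∈ Finset.range (N + 1), ((fourier (-1) x : ℂ) ^ k - (fourier 1 x : ℂ) ^ (k + 1))‖ *
      sd x ≤ 4 := by
    rw [h3]
    have h5 : 0 ≤ sd x := norm_nonneg _
    calc _ ≤ (‖∑ k ∈ Finset.range (N + 1), (fourier (-1) x : ℂ) ^ k‖ +
        ‖(fourier 1 x : ℂ) * ∑ k ∈ Finset.range (N + 1), (fourier 1 x : ℂ) ^ k‖) * sd x :=
          mul_le_mul_of_nonneg_right (norm_sub_le _ _) h5
      _ ≤ 4 := by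
        rw [norm_mul, four_norm, one_mul]
        nlinarith
  have h6 : (0 : ℝ) < (N : ℝ) + 1 := by positivity
  rw [mul_assoc]
  calc 1 / ((N : ℝ) + 1) * _ ≤ 1 / ((N : ℝ) + 1) * 4 :=
        mul_le_mul_of_nonneg_left h4 (by positivity)
    _ = 4 / ((N : ℝ) + 1) := by ring

lemma K_cont (N : ℕ) : Continuous (K N) := by
  unfold K
  fun_prop

lemma cN_eq (f : L1) (N : ℕ) : cN f N = ∫ x, K N x * f x ∂mu := by
  unfold cN K
  simp only [Finset.sum_mul]
  rw [integral_finsetSum]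
  · refine Finset.sum_congr rfl fun n _ => ?_
    simp only [mul_assoc]
    rw [integral_const_mul]
    rfl
  · intro n _
    have h1 : Integrable (fun x => (fourier (-n) x : ℂ) * f x) mu :=
      (L1.integrable_coeFn f).bdd_mul (c := 1) (fourier (-n)).continuous.aestronglyMeasurable
        (Eventually.of_forall fun x => (four_norm x (-n)).le)
    have h2 := h1.const_mul (Gc N n)
    simpa only [mul_assoc] using h2

lemma sd_le (x : Circ) : sd x ≤ 2 := by
  unfold sd
  calc ‖(1 : ℂ) - (fourier 1 x : ℂ)‖ ≤ ‖(1 : ℂ)‖ + ‖(fourier 1 x : ℂ)‖ := norm_sub_le _ _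
    _ = 2 := by rw [norm_one, four_norm]; norm_num

theorem main : S_HAR := by
  intro f
  have hf : Integrable (fun x => (f : Circ → ℂ) x) mu := L1.integrable_coeFn f
  have hint : ∀ N : ℕ, Integrable (fun x => ‖K N x‖ / ((N : ℝ) + 1) * ‖(f : Circ → ℂ) x‖) mu := by
    intro N
    refine hf.norm.bdd_mul (c := 2) ?_ ?_
    · exact ((K_cont N).norm.div_const _).aestronglyMeasurable
    · refine Eventually.of_forall fun x => ?_
      have h3 : (0 : ℝ) < (N : ℝ) + 1 := by positivity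
      rw [Real.norm_of_nonneg (by positivity), div_le_iff₀ h3]
      have h4 := K_bound1 N x
      have h5 := sd_le x
      nlinarith
  refine summable_of_sum_range_le (c := 7 * ∫ x, ‖(f : Circ → ℂ) x‖ ∂mu)
    (fun N => by positivity) ?_
  intro M
  calc ∑ N ∈ Finset.range M, ‖cN f N‖ / ((N : ℝ) + 1)
      ≤ ∑ N ∈ Finset.range M, ∫ x, ‖K N x‖ / ((N : ℝ) + 1) * ‖(f : Circ → ℂ) x‖ ∂mu := by
        refine Finset.sum_le_sum fun N _ => ?_
        have h1 : ∀ x, ‖K N x‖ / ((N : ℝ) + 1) * ‖(f : Circ → ℂ) x‖ =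
            (1 / ((N : ℝ) + 1)) * ‖K N x * f x‖ := by
          intro x
          rw [norm_mul]
          ring
        simp only [h1]
        rw [integral_const_mul, cN_eq]
        rw [div_eq_mul_one_div, mul_comm]
        exact mul_le_mul_of_nonneg_left (norm_integral_le_integral_norm _) (by positivity)
    _ = ∫ x, ∑ N ∈ Finset.range M, ‖K N x‖ / ((N : ℝ) + 1) * ‖(f : Circ → ℂ) x‖ ∂mu :=
        (integral_finsetSum _ fun N _ => hint N).symm
    _ ≤ ∫ x, 7 * ‖(f : Circ → ℂ) x‖ ∂mu := by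
        refine integral_mono (integrable_finsetSum _ fun N _ => hint N) (hf.norm.const_mul 7) ?_
        intro x
        simp only
        rw [← Finset.sum_mul]
        refine mul_le_mul_of_nonneg_right ?_ (norm_nonneg _)
        refine series (sd x) (norm_nonneg _) (sd_le x) (fun N => ‖K N x‖ / ((N : ℝ) + 1)) ?_ ?_ M
        · intro N
          have h3 : (0 : ℝ) < (N : ℝ) + 1 := by positivity
          rw [div_le_iff₀ h3]
          have := K_bound1 N x
          linarith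
        · intro N
          have h3 : (0 : ℝ) < (N : ℝ) + 1 := by positivity
          have h4 := K_bound2 N x
          rw [le_div_iff₀ h3] at h4
          have h5 : ‖K N x‖ / ((N : ℝ) + 1) * sd x * ((N : ℝ) + 1) ^ 2 =
              ‖K N x‖ * sd x * ((N : ℝ) + 1) := by
            field_simp
          rw [h5]
          exact h4
    _ = 7 * ∫ x, ‖(f : Circ → ℂ) x‖ ∂mu := integral_const_mul _ _

end

end Pool.Agent.W530.SYN.HAR
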